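import Pool.Agent.Q101.CbF

set_option autoImplicit false

namespace Pool.Agent.Results.MP_e67678_an.DiscontinuousCoefficient

variable {I E : Type} [NormedAddCommGroup E] [NormedSpace ℝ E]

/-- `y = ∑^𝒟 α i • X i`: for every `ε > 0` there is `d ∈ 𝒟` such that
`‖y - ∑ i ∈ d', α i • X i‖ < ε` for every `d' ∈ 𝒟` with `d ⊆ d'`. -/
def DSum (𝒟 : Set (Finset I)) (X : I → E) (α : I → ℝ) (y : E) : Prop :=
  ∀ ε > 0, ∃ d ∈ 𝒟, ∀ d' ∈ 𝒟, d ⊆ d' → ‖y - ∑ i ∈ d', α i • X i‖ < ε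

/-- `X` is an `(I, 𝒟)`-conditional basis: every `y` has exactly one family of coefficients. -/
def IsCondBasis (𝒟 : Set (Finset I)) (X : I → E) : Prop :=
  ∀ y : E, ∃! α : I → ℝ, DSum 𝒟 X α y

/-- The answer to Q1 is negative: there are a set `I`, a family `𝒟` of finite subsets of `I` with
(i) and (ii'), a real Banach space `E` and an `(I, 𝒟)`-conditional basis `X` of `E` having a
discontinuous coefficient functional. -/
theorem result : ∃ (I : Type) (𝒟 : Set (Finset I)) (E : Type) (_ : NormedAddCommGroup E)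
    (_ : NormedSpace ℝ E) (_ : CompleteSpace E) (X : I → E),
    (∀ i, ∃ d ∈ 𝒟, i ∈ d) ∧ (∀ d ∈ 𝒟, ∀ d' ∈ 𝒟, ∃ d'' ∈ 𝒟, d ⊆ d'' ∧ d' ⊆ d'') ∧
    IsCondBasis 𝒟 X ∧
    ∃ (i : I) (f : E → ℝ), (∀ (y : E) (α : I → ℝ), DSum 𝒟 X α y → f y = α i) ∧
      ¬ Continuous f :=
  Q101.CbF.main

end Pool.Agent.Results.MP_e67678_an.DiscontinuousCoefficient
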